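import Mathlib

set_option autoImplicit false

namespace Pool.Agent.PRB18

theorem gen_form {k A B I J : Type*} [Field k] [Ring A] [Algebra k A] [Ring B] [Algebra k B]
    [DecidableEq I] (i : B →ₐ[k] A) (s : I → A) (t : J → B)
    (hs : Submodule.span k (Set.range s) = ⊤) (ht : Submodule.span k (Set.range t) = ⊤)
    (P : TwoSidedIdeal A) (N : Submodule k B)
    (h1 : (1 : A) ∈ Ideal.span ((i '' (N : Set B)) ∪ {p | p ∈ P})) :
    ∃ z : (I × J) →₀ k, (1 - z.sum fun p r => r • (s p.1 * i (t p.2))) ∈ P ∧
      ∀ a : I, (z.sum fun p r => if p.1 = a then r • t p.2 else 0) ∈ N := by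
  classical
  -- the value and the coordinates of `z` as linear maps
  let F : ((I × J) →₀ k) →ₗ[k] A :=
    Finsupp.lsum k fun p => LinearMap.toSpanSingleton k A (s p.1 * i (t p.2))
  let G : I → ((I × J) →₀ k) →ₗ[k] B := fun a =>
    Finsupp.lsum k fun p => if p.1 = a then LinearMap.toSpanSingleton k B (t p.2) else 0
  have hF : ∀ z, (z.sum fun p r => r • (s p.1 * i (t p.2))) = F z := by
    intro z
    simp only [F, Finsupp.lsum_apply]
    rfl
  have hG : ∀ a z, (z.sum fun p r => if p.1 = a then r • t p.2 else 0) = G a z := by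
    intro a z
    simp only [G, Finsupp.lsum_apply]
    apply Finsupp.sum_congr
    intro p _
    split_ifs <;> simp
  -- the representable elements
  let T : Set A := {x | ∃ z, x - F z ∈ P ∧ ∀ a, G a z ∈ N}
  have h0 : (0 : A) ∈ T := ⟨0, by rw [map_zero, sub_zero]; exact P.zero_mem, fun a => by
    rw [map_zero]; exact N.zero_mem⟩
  have hadd : ∀ x ∈ T, ∀ y ∈ T, x + y ∈ T := by
    rintro x ⟨z, hz, hz'⟩ y ⟨w, hw, hw'⟩
    refine ⟨z + w, ?_, fun a => ?_⟩
    · have : x + y - F (z + w) = (x - F z) + (y - F w) := by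
        rw [map_add]
        abel
      rw [this]
      exact P.add_mem hz hw
    · rw [map_add]
      exact N.add_mem (hz' a) (hw' a)
  have hsmul : ∀ (r : k), ∀ x ∈ T, r • x ∈ T := by
    rintro r x ⟨z, hz, hz'⟩
    refine ⟨r • z, ?_, fun a => ?_⟩
    · rw [map_smul, ← smul_sub, Algebra.smul_def]
      exact P.mul_mem_left _ _ hz
    · rw [map_smul]
      exact N.smul_mem r (hz' a)
  have hP : ∀ x ∈ P, ∀ y ∈ T, x + y ∈ T := by
    rintro x hx y ⟨z, hz, hz'⟩
    refine ⟨z, ?_, hz'⟩
    rw [add_sub_assoc]
    exact P.add_mem hx hz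
  -- `s a * i n`
  have hbase : ∀ a, ∀ n ∈ N, s a * i n ∈ T := by
    intro a n hn
    have hn' : n ∈ Submodule.span k (Set.range t) := by rw [ht]; trivial
    rw [Finsupp.mem_span_range_iff_exists_finsupp] at hn'
    obtain ⟨c, hc⟩ := hn'
    have e1 : F (c.mapDomain fun j => (a, j)) = s a * i n := by
      rw [← hF, Finsupp.sum_mapDomain_index (by simp) (by intro p r r'; rw [add_smul]), ← hc]
      simp only [Finsupp.sum, map_sum, Finset.mul_sum, map_smul, mul_smul_comm]
    have e2 : ∀ a', G a' (c.mapDomain fun j => (a, j)) = if a = a' then n else 0 := by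
      intro a'
      rw [← hG, Finsupp.sum_mapDomain_index (by simp)
        (by intro p r r'; split_ifs <;> simp [add_smul])]
      by_cases h : a = a'
      · simp only [h, if_true]
        exact hc
      · simp only [h, if_false]
        simp [Finsupp.sum]
    refine ⟨c.mapDomain fun j => (a, j), ?_, fun a' => ?_⟩
    · rw [e1, sub_self]
      exact P.zero_mem
    · rw [e2]
      split_ifs
      · exact hn
      · exact N.zero_mem
  have hmulN : ∀ b : A, ∀ n ∈ N, b * i n ∈ T := by
    intro b n hn
    have hb : b ∈ Submodule.span k (Set.range s) := by rw [hs]; trivial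
    induction hb using Submodule.span_induction with
    | mem x hx =>
      obtain ⟨a, rfl⟩ := hx
      exact hbase a n hn
    | zero => rw [zero_mul]; exact h0
    | add x y _ _ hx hy => rw [add_mul]; exact hadd _ hx _ hy
    | smul r x _ hx => rw [smul_mul_assoc]; exact hsmul r _ hx
  have hall : ∀ x ∈ Ideal.span ((i '' (N : Set B)) ∪ {p | p ∈ P}), ∀ b : A, b * x ∈ T := by
    intro x hx
    induction hx using Submodule.span_induction with
    | mem x hx =>
      intro b
      rcases hx with ⟨n, hn, rfl⟩ | hx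
      · exact hmulN b n hn
      · have := hP (b * x) (P.mul_mem_left _ _ hx) 0 h0
        rwa [add_zero] at this
    | zero => intro b; rw [mul_zero]; exact h0
    | add x y _ _ hx hy => intro b; rw [mul_add]; exact hadd _ (hx b) _ (hy b)
    | smul r x _ hx =>
      intro b
      rw [smul_eq_mul, ← mul_assoc]
      exact hx (b * r)
  have := hall 1 h1 1
  rw [one_mul] at this
  obtain ⟨z, hz, hz'⟩ := this
  refine ⟨z, ?_, fun a => ?_⟩
  · rw [hF]
    exact hz
  · rw [hG]
    exact hz' a

end Pool.Agent.PRB18
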